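import Pool.Agent.Helper74.DIH.Goals
import Pool.Agent.Helper6.NW.NUM

/-!
# Project NW+, packet DIH, part D1: the numbering
-/

set_option autoImplicit false

namespace Pool.Agent.Helper6.DIH

open Pool.Agent.Helper52.Wq2 Pool.Agent.Helper61.NW Pool.Agent.Helper74.DIH

universe u

theorem d1 : D1Stmt.{u} := by
  intro V G X H ψ m n hH hψ hstep hedge hfin hn hn0 hm hf hconn htr
  subst hn
  obtain ⟨f, hf⟩ := hf
  have hne : Nonempty V := by
    obtain ⟨⟨v, -⟩, -⟩ := hconn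
    exact ⟨v⟩
  refine Pool.Agent.Helper6.NW.lsys_of G ψ X H m hH hm hψ hfin hstep hedge hconn ?_ ?_
  · intro u v
    rw [← hf, ← hf]
    exact f.map_rel_iff.symm
  · intro u v
    obtain ⟨f, e, he, ⟨j, hj⟩, hfe⟩ := htr u v
    exact ⟨f, e, he, hfe, j, hj⟩

end Pool.Agent.Helper6.DIH
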